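import Pool.Agent.Helper99.LZ.Bridge
import Pool.Agent.Helper33.C2.Pre

/-!
# Packet MT-CC (MP_2b0227_gt, project C2): couplings
-/

set_option autoImplicit false

open Finset

namespace Pool.Agent.Helper39.LZ

open LaurentPolynomial
open Pool.Agent.Helper99.LZ
open Pool.Agent.Helper52.C2 (Tg Fam Dir pre quad pwin1)

theorem mul_F_comm (A B : Tg) : (A.mul B).F = (B.mul A).F := by
  have h1 := A.rel
  have h2 := B.rel
  change A.R * B.F + A.F * B.L = B.R * A.F + B.F * A.L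
  linear_combination B.F * h1 - A.F * h2

/-- the masses as a finitely supported function -/
noncomputable def fm (a b : ℤ) (m : ℤ → ℤ → ℝ)
    (hs : ∀ i i', m i i' ≠ 0 → a ≤ i ∧ i ≤ i' ∧ i' ≤ b) : ℤ × ℤ →₀ ℝ :=
  Finsupp.onFinset (Icc a b ×ˢ Icc a b) (fun c => m c.1 c.2) (by
    intro c hc
    obtain ⟨h1, h2, h3⟩ := hs _ _ hc
    rw [mem_product, mem_Icc, mem_Icc]
    exact ⟨⟨h1, h2.trans h3⟩, ⟨h1.trans h2, h3⟩⟩)

theorem fm_apply (a b : ℤ) (m : ℤ → ℤ → ℝ)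
    (hs : ∀ i i', m i i' ≠ 0 → a ≤ i ∧ i ≤ i' ∧ i' ≤ b) (c : ℤ × ℤ) :
    fm a b m hs c = m c.1 c.2 := rfl

theorem sum_fm (a b : ℤ) (m : ℤ → ℤ → ℝ)
    (hs : ∀ i i', m i i' ≠ 0 → a ≤ i ∧ i ≤ i' ∧ i' ≤ b) (g : ℤ × ℤ → ℝ → ℝ)
    (hg : ∀ c, g c 0 = 0) :
    ∑ c ∈ (fm a b m hs).support, g c (fm a b m hs c) =
      ∑ j ∈ Icc a b, ∑ j' ∈ Icc a b, g (j, j') (m j j') := by
  rw [← Finset.sum_product' (Icc a b) (Icc a b) (fun j j' => g (j, j') (m j j'))]
  refine (Finset.sum_subset (Finsupp.support_onFinset_subset) ?_)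
  intro c _ hc
  rw [Finsupp.notMem_support_iff] at hc
  rw [hc, hg]

/-- the coupling -/
noncomputable def cpl (B : Tg) (a b : ℤ) (m : ℤ → ℤ → ℝ) (h0 : ∀ i i', 0 ≤ m i i')
    (hs : ∀ i i', m i i' ≠ 0 → a ≤ i ∧ i ≤ i' ∧ i' ≤ b)
    (hr : ∀ i, ∑ i' ∈ Icc a b, m i i' = (toPr B).L i)
    (hc : ∀ i', ∑ i ∈ Icc a b, m i i' = (toPr B).R i') : Pool.Agent.Helper52.C2.Cpl B where
  m := fm a b m hs
  nonneg := fun c => h0 _ _
  le := fun c hc => (hs _ _ hc).2.1
  left := by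
    intro x
    rw [sum_fm a b m hs (fun c t => if c.1 = x then t else 0) (by intro c; simp)]
    have e1 : ∀ j ∈ Icc a b, ∑ j' ∈ Icc a b, (if j = x then m j j' else 0)
        = if j = x then ∑ j' ∈ Icc a b, m x j' else 0 := by
      intro j _
      by_cases h : j = x
      · subst h; simp
      · simp [h]
    rw [Finset.sum_congr rfl e1, Finset.sum_ite_eq' (Icc a b) x]
    have e2 : B.L.coeff x = ∑ j' ∈ Icc a b, m x j' := by
      rw [hr x]
      exact (Pool.Agent.Helper33.C2.pre_sub_step B.L x).symm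
    rw [e2]
    split_ifs with h
    · rfl
    · symm
      refine Finset.sum_eq_zero fun j' _ => ?_
      by_contra h1
      obtain ⟨h2, h3, h4⟩ := hs _ _ h1
      exact h (mem_Icc.2 ⟨h2, h3.trans h4⟩)
  right := by
    intro x
    rw [sum_fm a b m hs (fun c t => if c.2 = x then t else 0) (by intro c; simp)]
    rw [Finset.sum_comm]
    have e1 : ∀ j' ∈ Icc a b, ∑ j ∈ Icc a b, (if j' = x then m j j' else 0)
        = if j' = x then ∑ j ∈ Icc a b, m j x else 0 := by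
      intro j _
      by_cases h : j = x
      · subst h; simp
      · simp [h]
    rw [Finset.sum_congr rfl e1, Finset.sum_ite_eq' (Icc a b) x]
    have e2 : B.R.coeff x = ∑ j ∈ Icc a b, m j x := by
      rw [hc x]
      exact (Pool.Agent.Helper33.C2.pre_sub_step B.R x).symm
    rw [e2]
    split_ifs with h
    · rfl
    · symm
      refine Finset.sum_eq_zero fun j _ => ?_
      by_contra h1
      obtain ⟨h2, h3, h4⟩ := hs _ _ h1
      exact h (mem_Icc.2 ⟨h2.trans h3, h4⟩)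

theorem bil_sum {ι : Type} [Fintype ι] (a b : ℤ) (m : ℤ → ℤ → ℝ) (M : ℤ → ℤ → ι → ι → ℝ) :
    bil (fun x y => ∑ j ∈ Icc a b, ∑ j' ∈ Icc a b, m j j' * M j j' x y) =
      ∑ j ∈ Icc a b, ∑ j' ∈ Icc a b, m j j' • bil (M j j') := by
  refine LinearMap.ext₂ fun u v => ?_
  simp only [LinearMap.sum_apply, LinearMap.smul_apply, smul_eq_mul]
  change ∑ x, ∑ y, u x * (∑ j ∈ Icc a b, ∑ j' ∈ Icc a b, m j j' * M j j' x y) * v y =
    ∑ j ∈ Icc a b, ∑ j' ∈ Icc a b, m j j' * (∑ x, ∑ y, u x * M j j' x y * v y)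
  simp only [Finset.mul_sum, Finset.sum_mul]
  rw [Finset.sum_comm' (s := univ) (t := fun _ => univ) (t' := univ) (s' := fun _ => univ)
    (by simp)]
  simp only [← Finset.sum_product']
  refine Finset.sum_nbij' (fun c => (c.2.2.1, c.2.2.2, c.2.1, c.1))
    (fun c => (c.2.2.2, c.2.2.1, c.1, c.2.1)) ?_ ?_ ?_ ?_ ?_
  all_goals simp
  intros
  ring

/-- **Packet MT-CC.** -/
theorem cc : StmtCC := by
  intro hmul B a b m h0 hs hr hc
  refine ⟨cpl B a b m h0 hs hr hc, ?_⟩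
  intro E _ _ A i
  have key : ∀ (S : Tg) (x : ℤ), (S.mul B).F.coeff x =
      ∑ j ∈ Icc a b, ∑ j' ∈ Icc a b, m j j' * S.h (j' - j) (x - j) := by
    intro S x
    rw [mul_F_comm, hmul B S (cpl B a b m h0 hs hr hc) x]
    exact sum_fm a b m hs (fun c t => t * S.h (c.2 - c.1) (x - c.1)) (by intro c; simp)
  have e : pwin1 A B (cpl B a b m h0 hs hr hc) i = fun x y =>
      ∑ j ∈ Icc a b, ∑ j' ∈ Icc a b, m j j' * famEntry A (i + 2 - 2 - j) (i + 2 - j') x y := by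
    have e0 : ∀ j j' : ℤ, i - j - (i + 2 - j') + 2 = j' - j := by intro j j'; ring
    have e2 : ∀ j : ℤ, i - j + 2 = i + 2 - j := by intro j; ring
    have e1 : ∀ j : ℤ, i - j + 1 = i + 1 - j := by intro j; ring
    have e3 : ∀ j : ℤ, i + 2 - 2 - j = i - j := by intro j; ring
    funext x y
    have ke : ∀ x y : E, ∑ q ∈ (cpl B a b m h0 hs hr hc).m.support,
        (cpl B a b m h0 hs hr hc).m q * A.G x y (q.2 - q.1).toNat (i - q.1) =
        ∑ j ∈ Icc a b, ∑ j' ∈ Icc a b, m j j' * A.G x y (j' - j).toNat (i - j) := fun x y =>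
      sum_fm a b m hs (fun c t => t * A.G x y (c.2 - c.1).toNat (i - c.1)) (by intro c; simp)
    cases x <;> cases y
    all_goals simp only [pwin1, famEntry, key, ke, e0, e2, e1, e3]
  rw [e]
  exact bil_sum a b m (fun j j' => famEntry A (i + 2 - 2 - j) (i + 2 - j'))

end Pool.Agent.Helper39.LZ
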